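import Mathlib

set_option autoImplicit false

namespace Pool.Agent.Results.MP_c1fe20_lc.Yes

open Filter Topology MeasureTheory

/-- `a` is a continuous functional action of the topological monoid `M` on the space `Y`. -/
def IsContAction {M Y : Type} [Monoid M] [TopologicalSpace M] [TopologicalSpace Y]
    (a : M → Y → Y) : Prop :=
  Continuous (fun p : M × Y => a p.1 p.2) ∧ (∀ y, a 1 y = y) ∧
    ∀ (h g : M) (y : Y), a h (a g y) = a (h * g) y

/-- The relation `R` on `X` Borel reduces to the relation `S` on `Y`. -/
def BorelRed {X Y : Type} [TopologicalSpace X] [TopologicalSpace Y]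
    (R : X → X → Prop) (S : Y → Y → Prop) : Prop :=
  ∃ f : X → Y, @Measurable X Y (borel X) (borel Y) f ∧ ∀ x x', R x x' ↔ S (f x) (f x')

theorem cont_list {Z W V : Type} [TopologicalSpace Z] [TopologicalSpace W] [TopologicalSpace V]
    (F : List Z → W → V)
    (h : ∀ n, Continuous fun p : (Fin n → Z) × W => F (List.ofFn p.1) p.2) :
    @Continuous (List Z × W) V (@instTopologicalSpaceProd _ _
      (TopologicalSpace.induced List.equivSigmaTuple inferInstance) _) _ (fun p => F p.1 p.2) := by
  let t : TopologicalSpace (List Z) := TopologicalSpace.induced List.equivSigmaTuple inferInstance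
  have h1 : Continuous (fun q : Σ n, (Fin n → Z) × W => F (List.ofFn q.2.1) q.2.2) :=
    continuous_sigma h
  have h2 : Continuous (fun p : List Z × W => (List.equivSigmaTuple p.1, p.2)) :=
    ((continuous_induced_dom (f := List.equivSigmaTuple)).comp continuous_fst).prodMk continuous_snd
  have h3 := (h1.comp (Homeomorph.sigmaProdDistrib (X := fun n => Fin n → Z) (Y := W)).continuous).comp h2
  refine h3.congr fun p => ?_
  change F (List.ofFn p.1.get) p.2 = _
  rw [List.ofFn_get]

theorem free_action {Z Y : Type} [TopologicalSpace Z] [PolishSpace Z] [TopologicalSpace Y]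
    (g : Z → Y → Y) (hg : Continuous fun p : Z × Y => g p.1 p.2) :
    ∃ (M : Type) (_ : Monoid M) (_ : TopologicalSpace M) (_ : PolishSpace M) (_ : ContinuousMul M)
      (a : M → Y → Y), IsContAction a ∧ (∀ z, ∃ m, ∀ y, a m y = g z y) ∧
      ∀ S : Y → Y → Prop, (∀ y, S y y) → (∀ x y z, S x y → S y z → S x z) →
        (∀ z y, S y (g z y)) → ∀ m y, S y (a m y) := by
  let t : TopologicalSpace (List Z) := TopologicalSpace.induced List.equivSigmaTuple inferInstance
  have hof : ∀ n, Continuous (List.ofFn : (Fin n → Z) → List Z) := by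
    intro n
    refine continuous_induced_rng.2 ?_
    refine (continuous_sigmaMk (σ := fun n => Fin n → Z) (i := n)).congr fun u => ?_
    exact (List.equivSigmaTuple.apply_symm_apply ⟨n, u⟩).symm
  have hmul : Continuous (fun p : List Z × List Z => p.1 ++ p.2) := by
    refine cont_list (fun l l' => l ++ l') fun n => ?_
    have h1 : Continuous (fun p : List Z × (Fin n → Z) => List.ofFn p.2 ++ p.1) := by
      refine cont_list (fun l (u : Fin n → Z) => List.ofFn u ++ l) fun m => ?_
      have h2 : Continuous (fun p : (Fin m → Z) × (Fin n → Z) => Fin.append p.2 p.1) := by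
        refine continuous_pi fun i => ?_
        refine Fin.addCases (fun i => ?_) (fun i => ?_) i
        · simp only [Fin.append_left]
          fun_prop
        · simp only [Fin.append_right]
          fun_prop
      exact ((hof (n + m)).comp h2).congr fun p => List.ofFn_fin_append _ _
    exact h1.comp continuous_swap
  let mon : Monoid (List Z) :=
    { mul := fun l l' => l ++ l'
      one := []
      mul_assoc := List.append_assoc
      one_mul := List.nil_append
      mul_one := List.append_nil }
  refine ⟨List Z, mon, t, List.equivSigmaTuple.polishSpace_induced, ⟨hmul⟩,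
    fun l y => l.foldr g y, ⟨?_, fun _ => rfl, fun h k y => (List.foldr_append).symm⟩,
    fun z => ⟨[z], fun _ => rfl⟩, ?_⟩
  · refine cont_list (fun l y => l.foldr g y) fun n => ?_
    induction n with
    | zero => simpa using continuous_snd
    | succ n ih =>
      simp only [List.ofFn_succ, List.foldr_cons]
      have h1 : Continuous (fun p : (Fin (n + 1) → Z) × Y => ((fun i : Fin n => p.1 i.succ), p.2)) := by
        fun_prop
      exact hg.comp (((continuous_apply 0).comp continuous_fst).prodMk (ih.comp h1))
  · intro S h1 h2 h3 m y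
    induction m with
    | nil => exact h1 y
    | cons z m ih => exact h2 _ _ _ ih (h3 z _)

/-- the space acted upon -/
abbrev Y0 : Type := ℕ → ℕ → Bool

theorem polish0 : PolishSpace (ℕ → Bool) :=
  have : SecondCountableTopology (ℕ → Bool) := inferInstance
  have : TopologicalSpace.IsCompletelyMetrizableSpace (ℕ → Bool) := inferInstance
  ⟨⟩

theorem polish1 : PolishSpace Y0 :=
  have := polish0
  have : SecondCountableTopology Y0 := inferInstance
  have : TopologicalSpace.IsCompletelyMetrizableSpace Y0 := inferInstance
  ⟨⟩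

open Classical in
/-- the basic maps -/
noncomputable def sw (s t r : Y0) : Y0 :=
  fun n => if ∀ i : Fin (n + 1), ∀ j : Fin (n + 1), r i j = s i j then t n else r n

theorem sw_cont : Continuous (fun p : (Y0 × Y0) × Y0 => sw p.1.1 p.1.2 p.2) := by
  refine continuous_pi fun n => ?_
  unfold sw
  have hc : IsClopen {p : (Y0 × Y0) × Y0 |
      ∀ i : Fin (n + 1), ∀ j : Fin (n + 1), p.2 i j = p.1.1 i j} := by
    simp only [Set.ofPred_forall]
    refine isClopen_iInter_of_finite fun i => isClopen_iInter_of_finite fun j => ?_
    have h1 : Continuous (fun p : (Y0 × Y0) × Y0 => (p.2 i j, p.1.1 i j)) := by fun_prop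
    exact (isClopen_discrete {q : Bool × Bool | q.1 = q.2}).preimage h1
  refine Continuous.if ?_ (by fun_prop) (by fun_prop)
  rw [hc.frontier_eq]
  simp

theorem sw_self (s t : Y0) : sw s t s = t := by
  funext n
  simp [sw]

open Classical in
/-- the limit value -/
noncomputable def val (s : Y0) : ℕ → Bool := fun k => decide (∀ᶠ n in atTop, s n k = true)

theorem val_sw (s t r : Y0) (h : r ≠ s) : val (sw s t r) = val r := by
  obtain ⟨i, hi⟩ := Function.ne_iff.1 h
  obtain ⟨j, hj⟩ := Function.ne_iff.1 hi
  have h1 : ∀ᶠ n in atTop, sw s t r n = r n := by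
    filter_upwards [eventually_ge_atTop i, eventually_ge_atTop j] with n h2 h3
    unfold sw
    rw [if_neg]
    intro h4
    exact hj (h4 ⟨i, Nat.lt_succ_of_le h2⟩ ⟨j, Nat.lt_succ_of_le h3⟩)
  funext k
  unfold val
  refine decide_eq_decide.2 (eventually_congr ?_)
  filter_upwards [h1] with n hn
  rw [hn]

theorem val_const (x : ℕ → Bool) : val (fun _ => x) = x := by
  funext k
  unfold val
  simp only [eventually_const]
  simp

theorem val_meas : Measurable val := by
  refine measurable_pi_lambda _ fun k => ?_
  refine measurable_to_bool ?_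
  have : (fun s : Y0 => val s k) ⁻¹' {true} = ⋃ N, ⋂ n, ⋂ _ : N ≤ n, {s : Y0 | s n k = true} := by
    ext s
    simp [val, eventually_atTop]
  rw [this]
  refine MeasurableSet.iUnion fun N => MeasurableSet.iInter fun n => MeasurableSet.iInter fun _ => ?_
  have h1 : Measurable (fun s : Y0 => s n k) := by fun_prop
  exact h1 (measurableSet_singleton true)

theorem result (X : Type) [TopologicalSpace X] [PolishSpace X] (R : X → X → Prop)
    (hrefl : ∀ x, R x x) (htrans : ∀ x y z, R x y → R y z → R x z)
    (han : AnalyticSet {p : X × X | R p.1 p.2}) :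
    ∃ (M : Type) (_ : Monoid M) (_ : TopologicalSpace M) (_ : PolishSpace M) (_ : ContinuousMul M)
      (Y : Type) (_ : TopologicalSpace Y) (_ : PolishSpace Y) (a : M → Y → Y),
      IsContAction a ∧ BorelRed R (fun y y' => ∃ g, a g y = y') ∧
        BorelRed (fun y y' => ∃ g, a g y = y') R := by
  borelize X
  rcases isEmpty_or_nonempty X with hX | hX
  · refine ⟨Unit, inferInstance, inferInstance, inferInstance, inferInstance, X, inferInstance,
      inferInstance, fun _ y => y, ⟨continuous_snd, fun _ => rfl, fun _ _ _ => rfl⟩,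
      ⟨id, measurable_id, fun x => (hX.false x).elim⟩, ⟨id, measurable_id, fun x => (hX.false x).elim⟩⟩
  have := polish0
  have := polish1
  obtain ⟨e, he, hei⟩ := MeasurableSpace.measurable_injection_nat_bool_of_countablySeparated X
  obtain ⟨ρ, hρ, hρe⟩ := (he.measurableEmbedding hei).exists_measurable_extend
    (measurable_id (α := X)) (fun _ => hX)
  let v : Y0 → X := ρ ∘ val
  have hv : Measurable v := hρ.comp val_meas
  have hvi : ∀ x, v (fun _ => e x) = x := by
    intro x
    change ρ (val _) = x
    rw [val_const]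
    exact congrFun hρe x
  have hvv : Measurable (fun p : Y0 × Y0 => (v p.1, v p.2)) :=
    (hv.comp measurable_fst).prodMk (hv.comp measurable_snd)
  have h1 : AnalyticSet ((fun p : Y0 × Y0 => (v p.1, v p.2)) ⁻¹' {p : X × X | R p.1 p.2}) := by
    obtain ⟨t', ht', hc, hp⟩ := hvv.exists_continuous
    have h1 := @AnalyticSet.preimage (Y0 × Y0) (X × X) t' _ hp _ _ han _ hc
    have h2 := @AnalyticSet.image_of_continuous (Y0 × Y0) t' (Y0 × Y0) instTopologicalSpaceProd _ h1
      id (continuous_id_iff_le.2 ht')
    rwa [Set.image_id] at h2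
  obtain ⟨Z, tZ, pZ, f, hf', hr⟩ := analyticSet_iff_exists_polishSpace_range.1 h1
  have hfR : ∀ z, R (v (f z).1) (v (f z).2) := fun z => (hr ▸ Set.mem_range_self z :
    f z ∈ (fun p : Y0 × Y0 => (v p.1, v p.2)) ⁻¹' {p : X × X | R p.1 p.2})
  obtain ⟨M, mM, tM, pM, cM, a, ha, h2, h3⟩ := free_action (fun z r => sw (f z).1 (f z).2 r)
    (sw_cont.comp ((hf'.comp continuous_fst).prodMk continuous_snd))
  have key : ∀ y y', (∃ g, a g y = y') ↔ R (v y) (v y') := by
    intro y y'
    constructor
    · rintro ⟨g, rfl⟩
      refine h3 (fun y y' => R (v y) (v y')) (fun _ => hrefl _) (fun _ _ _ => htrans _ _ _) ?_ g y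
      intro z r
      by_cases h : r = (f z).1
      · rw [h, sw_self]
        exact hfR z
      · have : v (sw (f z).1 (f z).2 r) = v r := congrArg ρ (val_sw _ _ _ h)
        rw [this]
        exact hrefl _
    · intro h
      have : (y, y') ∈ Set.range f := by
        rw [hr]
        exact h
      obtain ⟨z, hz⟩ := this
      obtain ⟨m, hm⟩ := h2 z
      refine ⟨m, ?_⟩
      rw [hm, hz]
      exact sw_self _ _
  have hb : borel Y0 = (inferInstance : MeasurableSpace Y0) := BorelSpace.measurable_eq.symm
  refine ⟨M, mM, tM, pM, cM, Y0, inferInstance, inferInstance, a, ha,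
    ⟨fun x _ => e x, ?_, fun x x' => ?_⟩, ⟨v, ?_, key⟩⟩
  · rw [hb]
    exact measurable_pi_lambda _ fun _ => he
  · beta_reduce
    rw [key, hvi, hvi]
  · rw [hb]
    exact hv

end Pool.Agent.Results.MP_c1fe20_lc.Yes
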